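import Pool.Agent.H8.UB.Targets

/-!
Board ubd (`MP_404602_al`): row UNB (helper67).
-/

set_option autoImplicit false

open CategoryTheory TensorProduct Cardinal Ordinal

namespace Pool.Agent.H67.UB

open Pool.Agent.H8.UB Pool.Agent.H56.UDs

theorem card_iff (α : Ordinal.{0}) : α.card ≤ ℵ₀ ↔ α < ω₁ := by
  rw [Cardinal.card_le_iff, succ_aleph0, ord_aleph]

theorem sc_countable (n : ℕ) (K : Type) [Field K] [Countable K] : Countable (SC n K) := by
  have hinj : Function.Injective (fun s : SC n K => (s.c, s.u)) := by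
    rintro ⟨c, u, h1, h2, h3⟩ ⟨c', u', h1', h2', h3'⟩ h
    simp only [Prod.mk.injEq] at h
    obtain ⟨rfl, rfl⟩ := h
    rfl
  exact hinj.countable

/-- isomorphic fields give isomorphic algebras -/
noncomputable def alEquiv {n : ℕ} {K K' : Type} [Field K] [Field K'] (e : K ≃+* K') (s : SC n K) :
    Al s ≃+* Al (s.map (e : K →+* K')) :=
  RingEquiv.ofBijective (alMap s (e : K →+* K')) (by
    constructor
    · intro x y h
      funext l
      have h1 : e (x l) = e (y l) := congrFun h l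
      exact e.injective h1
    · intro y
      refine ⟨fun l => e.symm (y l), ?_⟩
      funext l
      exact e.apply_symm_apply (y l))

theorem pf_UNB (hORB : T_ORB) (hLSF : T_LSF) (hSTZ : T_STZ) (hRIG : T_RIG) : T_UNB := by
  classical
  obtain ⟨I, hI, F, hF, hFc, hiso⟩ := hSTZ
  have : ∀ i (n : ℕ), Countable (@SC n (F i) (hF i)) := fun i n =>
    @sc_countable n (F i) (hF i) (hFc i)
  let J : Type := Σ i : I, Σ n : ℕ, @SC n (F i) (hF i)
  have : Countable J := inferInstanceAs (Countable (Σ i : I, Σ n : ℕ, @SC n (F i) (hF i)))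
  let o : J → Ordinal.{0} := fun j =>
    if h : ∃ α : Ordinal.{0}, α.card ≤ ℵ₀ ∧
        @UDl (@Al j.2.1 (F j.1) (hF j.1) j.2.2) (@Pool.Agent.H8.UB.instRingAl j.2.1 (F j.1) (hF j.1) j.2.2) = α
      then Order.succ h.choose else 0
  have ho : ∀ j, o j < ω₁ := by
    intro j
    by_cases h : ∃ α : Ordinal.{0}, α.card ≤ ℵ₀ ∧
        @UDl (@Al j.2.1 (F j.1) (hF j.1) j.2.2) (@Pool.Agent.H8.UB.instRingAl j.2.1 (F j.1) (hF j.1) j.2.2) = α
    · have e1 : o j = Order.succ h.choose := dif_pos h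
      rw [e1, ← ord_aleph]
      exact (isSuccLimit_ord (aleph0_le_aleph 1)).succ_lt
        (by rw [ord_aleph]; exact (card_iff _).1 h.choose_spec.1)
    · have e1 : o j = 0 := dif_neg h
      rw [e1]
      exact Ordinal.omega_pos 1
  refine ⟨⨆ j, o j, (card_iff _).2 (Ordinal.iSup_lt_omega_one ho), ?_⟩
  intro K _ _ n s
  rcases hORB K n s with h | ⟨α, hα, hU⟩
  · exact Or.inl h
  · right
    obtain ⟨K₀, hK₀, hA₀, hC₀, s₀, hs₀⟩ := hLSF K n s α hα hU
    obtain ⟨i, ⟨e⟩⟩ := @hiso K₀ hK₀ hA₀ hC₀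
    let _ := hF i
    have h1 : UDl (Al (s₀.map (e : K₀ →+* F i))) = α := by
      rw [← hRIG _ _ (alEquiv e s₀)]
      exact hs₀
    refine ⟨α, ?_, hU⟩
    have h2 : ∃ α : Ordinal.{0}, α.card ≤ ℵ₀ ∧ UDl (Al (s₀.map (e : K₀ →+* F i))) = α :=
      ⟨α, hα, h1⟩
    have e1 : o ⟨i, n, s₀.map (e : K₀ →+* F i)⟩ = Order.succ h2.choose := dif_pos h2
    have h3 : h2.choose = α := by
      have h4 := h1.symm.trans h2.choose_spec.2
      exact (WithTop.coe_injective h4).symm
    rw [h3] at e1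
    have hb : BddAbove (Set.range o) := by
      refine ⟨ω₁, ?_⟩
      rintro _ ⟨j, rfl⟩
      exact (ho j).le
    calc α < Order.succ α := Order.lt_succ α
      _ = o ⟨i, n, s₀.map (e : K₀ →+* F i)⟩ := e1.symm
      _ ≤ ⨆ j, o j := le_ciSup hb _

end Pool.Agent.H67.UB
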