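import Pool.Agent.H8.UB.Targets
import Pool.Agent.H8.UG.Targets

/-!
Board ubg (`MP_404602_al`): row GRC (helper67).
-/

set_option autoImplicit false

open CategoryTheory TensorProduct

namespace Pool.Agent.H67.UB

open Pool.Agent.H8.UB Pool.Agent.H8.UG Pool.Agent.H56.UDs

theorem pf_GRC (hFIN : T_FIN) (hGBC : G_GBC) : G_GRC := by
  obtain ⟨β, hβ, h1, _⟩ := hFIN
  refine ⟨β, hβ, h1, ?_⟩
  intro k _ _ _ R _ _ _
  have hN : IsNoetherianRing Rᵐᵒᵖ := IsNoetherianRing.of_finite k Rᵐᵒᵖ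
  obtain ⟨c, _, h2⟩ := hGBC k (AlgebraicClosure k)
  rcases h1 k R with h | h
  · exact Or.inl ((h2 R).1.1 h)
  · exact Or.inr h

end Pool.Agent.H67.UB
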